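import Pool.Agent.Helper58_PW.Basic

set_option autoImplicit false

/-!
# Squad PW, row PIV: pivot sets exist
-/

namespace Pool.Agent.PW.H58

open MvPolynomial
open Pool.Agent.RS (FF io io_injective)

variable {E : Type} [Field E]

/-- The specialisation `x_l ↦ ξ_l` for `l ≠ i`. -/
noncomputable def sub1 (ξ : ℕ → E) (i : ℕ) : MvPolynomial ℕ E →ₐ[E] MvPolynomial ℕ E :=
  aeval fun l => if l = i then X i else C (ξ l)

theorem sub1_self (ξ : ℕ → E) (i : ℕ) (f : MvPolynomial ℕ E) (h : f.vars ⊆ {i}) :
    sub1 ξ i f = f := by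
  have h1 : sub1 ξ i f = (AlgHom.id E (MvPolynomial ℕ E)) f := by
    apply algHom_congr
    intro j hj
    have hji : j = i := Finset.mem_singleton.1 (h hj)
    subst hji
    simp [sub1]
  rw [h1]
  rfl

theorem sub1_const (ξ : ℕ → E) (i : ℕ) (f : MvPolynomial ℕ E) (h : i ∉ f.vars) :
    sub1 ξ i f = C (aeval ξ f) := by
  have h1 : sub1 ξ i f = ((Algebra.ofId E (MvPolynomial ℕ E)).comp (aeval ξ)) f := by
    apply algHom_congr
    intro j hj
    have hji : j ≠ i := fun h2 => h (h2 ▸ hj)
    simp only [sub1, aeval_X, hji, if_false, AlgHom.comp_apply]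
    rfl
  rw [h1]
  rfl

/-- A nonzero polynomial over an infinite field does not vanish somewhere. -/
theorem exists_point [CharZero E] (f : MvPolynomial ℕ E) (hf : f ≠ 0) :
    ∃ ξ : ℕ → E, aeval ξ f ≠ 0 := by
  by_contra hcon
  push Not at hcon
  apply hf
  apply MvPolynomial.funext
  intro ξ
  have h1 := hcon ξ
  rw [map_zero, ← h1]
  rfl

/-- Pivot sets exist, over the polynomials. -/
theorem piv_aux [CharZero E] (ρ N : ℕ) (y : Fin ρ → MvPolynomial ℕ E) (GM : Finset ℕ)
    (hy : LinearIndependent E y) (hGM : ∀ a, IsUG GM (y a))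
    (hN : Robust N (Submodule.span E (Set.range y))) (Y : Finset ℕ) (hY : GM ⊆ Y)
    (hc : Y.card + ρ ≤ N) :
    ∃ z : Fin ρ → ℕ, Function.Injective z ∧ (PV y z).det ≠ 0 ∧ ∀ b, z b ∉ Y := by
  classical
  induction ρ with
  | zero => exact ⟨Fin.elim0, fun a => a.elim0, by simp, fun b => b.elim0⟩
  | succ ρ ih =>
    have hy' : LinearIndependent E (fun a : Fin ρ => y a.succ) :=
      hy.comp _ (Fin.succ_injective ρ)
    have hsub : Submodule.span E (Set.range fun a : Fin ρ => y a.succ) ≤
        Submodule.span E (Set.range y) := by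
      apply Submodule.span_mono
      rintro _ ⟨a, rfl⟩
      exact ⟨a.succ, rfl⟩
    obtain ⟨z, hz1, hz2, hz3⟩ := ih (fun a : Fin ρ => y a.succ) hy' (fun a => hGM a.succ)
      (fun g hg => hN g (hsub hg)) (by omega)
    obtain ⟨ξ, hξ⟩ := exists_point _ hz2
    -- the values of the minors
    let M : Fin (ρ + 1) → MvPolynomial ℕ E := fun j =>
      (Matrix.of fun b a : Fin ρ => pderiv (z b) (y (j.succAbove a))).det
    have hM0 : M 0 = (PV (fun a : Fin ρ => y a.succ) z).det := rfl
    let θ : Fin (ρ + 1) → E := fun j => (-1) ^ (j : ℕ) * aeval ξ (M j)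
    have hθ : θ 0 ≠ 0 := by
      change (-1) ^ (((0 : Fin (ρ + 1)) : ℕ)) * aeval ξ (M 0) ≠ 0
      rw [Fin.val_zero, pow_zero, one_mul, hM0]
      exact hξ
    let g : MvPolynomial ℕ E := ∑ j, θ j • y j
    have hg0 : g ≠ 0 := by
      intro h1
      exact hθ (Fintype.linearIndependent_iff.1 hy θ h1 0)
    have hgM : g ∈ Submodule.span E (Set.range y) :=
      Submodule.sum_mem _ fun j _ => Submodule.smul_mem _ _ (Submodule.subset_span ⟨j, rfl⟩)
    have hgN := hN g hgM hg0
    obtain ⟨i, hi1, hi2⟩ : ∃ i ∈ g.vars, i ∉ Y ∪ Finset.univ.image z := by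
      by_contra hcon
      push Not at hcon
      have h1 : g.vars ⊆ Y ∪ Finset.univ.image z := fun i hi => hcon i hi
      have h2 := Finset.card_le_card h1
      have h3 : (Y ∪ Finset.univ.image z).card ≤ Y.card + ρ := by
        refine (Finset.card_union_le _ _).trans ?_
        have h4 : (Finset.univ.image z).card ≤ ρ := by
          refine Finset.card_image_le.trans ?_
          simp
        omega
      omega
    have hiY : i ∉ Y := fun h => hi2 (Finset.mem_union_left _ h)
    have hiz : ∀ b, z b ≠ i := fun b h => hi2 (Finset.mem_union_right _ (h ▸ Finset.mem_image_of_mem _ (Finset.mem_univ b)))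
    have hiG : i ∉ GM := fun h => hiY (hY h)
    refine ⟨Fin.cons i z, ?_, ?_, ?_⟩
    · rw [Fin.cons_injective_iff]
      exact ⟨fun ⟨b, hb⟩ => hiz b hb, hz1⟩
    · intro hdet
      rw [Matrix.det_succ_row_zero] at hdet
      have h1 : sub1 ξ i (∑ j : Fin (ρ + 1), (-1) ^ (j : ℕ) * PV y (Fin.cons i z) 0 j *
          ((PV y (Fin.cons i z)).submatrix Fin.succ j.succAbove).det) = pderiv i g := by
        rw [map_sum]
        change _ = pderiv i (∑ j, θ j • y j)
        rw [map_sum]
        refine Finset.sum_congr rfl fun j _ => ?_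
        rw [map_mul, map_mul, map_pow, map_neg, map_one, Derivation.map_smul]
        have h2 : PV y (Fin.cons i z) 0 j = pderiv i (y j) := rfl
        have h3 : ((PV y (Fin.cons i z)).submatrix Fin.succ j.succAbove) =
            Matrix.of fun b a : Fin ρ => pderiv (z b) (y (j.succAbove a)) := rfl
        rw [h2, h3, sub1_self ξ i _ (vars_pderiv (hGM j) hiG)]
        have h4 : sub1 ξ i (Matrix.of fun b a : Fin ρ => pderiv (z b) (y (j.succAbove a))).det =
            C (aeval ξ (M j)) := by
          have h5 : (sub1 ξ i : MvPolynomial ℕ E →+* MvPolynomial ℕ E)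
              (Matrix.of fun b a : Fin ρ => pderiv (z b) (y (j.succAbove a))).det =
              ((C : E →+* MvPolynomial ℕ E).comp (aeval ξ : MvPolynomial ℕ E →ₐ[E] E).toRingHom)
              (Matrix.of fun b a : Fin ρ => pderiv (z b) (y (j.succAbove a))).det := by
            rw [RingHom.map_det, RingHom.map_det]
            congr 1
            ext1 b a
            change sub1 ξ i (pderiv (z b) (y (j.succAbove a))) = C (aeval ξ (pderiv (z b) (y (j.succAbove a))))
            apply sub1_const
            intro h6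
            have h7 := vars_pderiv (hGM (j.succAbove a)) (i := z b) (fun h => hz3 b (hY h)) h6
            exact hiz b (Finset.mem_singleton.1 h7).symm
          exact h5
        rw [h4, smul_eq_C_mul]
        change (-1) ^ (j : ℕ) * pderiv i (y j) * C (aeval ξ (M j)) =
          C ((-1) ^ (j : ℕ) * aeval ξ (M j)) * pderiv i (y j)
        rw [C_mul, C_pow, C_neg, C_1]
        ring
      rw [hdet, map_zero] at h1
      exact notMem_vars i g h1.symm hi1
    · intro b
      refine Fin.cases ?_ ?_ b
      · rw [Fin.cons_zero]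
        exact hiY
      · intro b
        rw [Fin.cons_succ]
        exact hz3 b

theorem piv : PivStmt := by
  intro E _ _ ρ N y GM hy hGM hN Y hY hc
  obtain ⟨z, h1, h2, h3⟩ := piv_aux ρ N y GM hy hGM hN Y hY hc
  exact ⟨z, ⟨h1, (det_VV_ne y z).2 h2⟩, h3⟩

end Pool.Agent.PW.H58
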