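import Pool.Agent.Helper58_PW.PIV
import Pool.Agent.PW.StmtsA

set_option autoImplicit false

/-!
# Squad PW, the form `PivsStmt` of row PIV
-/

namespace Pool.Agent.PW.H58

theorem pivs : PivsStmt := by
  intro E _ _ ρ N y G Y hy hG hN hc
  exact piv E ρ N y G hy hG hN (Y ∪ G) Finset.subset_union_right hc

end Pool.Agent.PW.H58
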