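import Pool.Agent.Helper58_PW.PIV
import Pool.Agent.Helper26_PW.EPS
import Pool.Agent.Helper22_PW.Pt

set_option autoImplicit false

/-!
# Squad PW, row PNT: the point
-/

namespace Pool.Agent.PW.H58

theorem pnt : PntStmt := by
  intro E D _ _ _ _ _ ζ m ρ N k c0 y GM J1 hζ hli hy hrob hGM h1 h2 h3
  obtain ⟨z, hz, hzJ⟩ := piv E ρ N y GM hli hy hrob J1 hGM (by omega)
  obtain ⟨Om, i1, i2, j, e, hpt⟩ := Pool.Agent.PW.H26.eps piv E D ζ m ρ N y GM J1 z hζ hli hy hrob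
    hGM hz hzJ (by omega) (by omega)
  refine ⟨z, Om, i1, i2, e, hz, hzJ, hpt.2.2.2, ?_, ?_⟩
  · exact Pool.Agent.PW.H22.ptj piv E D Om ζ m ρ N k y GM J1 z j e hζ hli hy hrob hGM hz hzJ
      (by omega) (by omega) hpt
  · exact Pool.Agent.PW.H22.ptf piv E D Om ζ m ρ N k c0 y GM J1 z j e hζ hli hy hrob hGM hz hzJ
      h1 h2 h3 hpt

end Pool.Agent.PW.H58
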