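import Pool.Agent.PW.StmtsB

set_option autoImplicit false

/-!
# Squad PW, block 3: variables and derivatives, splitting
-/

namespace Pool.Agent.PW.H58

open MvPolynomial
open Pool.Agent.RS (FF io io_injective)

variable {E : Type} [Field E]

/-- In characteristic 0 a polynomial with vanishing derivative does not contain the variable. -/
theorem notMem_vars {ι : Type} [CharZero E] (i : ι) (f : MvPolynomial ι E) (h : pderiv i f = 0) :
    i ∉ f.vars := by
  classical
  intro hi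
  rw [mem_vars_iff_mem_support] at hi
  obtain ⟨m, hm, hmi⟩ := hi
  have hmi' : m i ≠ 0 := Finsupp.mem_support_iff.1 hmi
  have h1 : coeff (m - Finsupp.single i 1) (pderiv i f) = 0 := by rw [h, coeff_zero]
  rw [coeff_pderiv] at h1
  have h2 : m - Finsupp.single i 1 + Finsupp.single i 1 = m := by
    apply tsub_add_cancel_of_le
    rw [Finsupp.single_le_iff]
    omega
  rw [h2] at h1
  have h3 : coeff m f ≠ 0 := mem_support_iff.1 hm
  have h4 : (((m - Finsupp.single i 1 : ι →₀ ℕ) i : ℕ) : E) + 1 ≠ 0 :=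
    Nat.cast_add_one_ne_zero _
  rcases mul_eq_zero.1 h1 with h5 | h5
  · exact h3 h5
  · exact h4 h5

theorem pderiv_eq_zero_iff {ι : Type} [CharZero E] (i : ι) (f : MvPolynomial ι E) :
    pderiv i f = 0 ↔ i ∉ f.vars :=
  ⟨notMem_vars i f, fun h => pderiv_eq_zero_of_notMem_vars h⟩

/-- `∂_i g` depends on `x_i` only, for `i` outside the junta set. -/
theorem vars_pderiv [CharZero E] {G : Finset ℕ} {g : MvPolynomial ℕ E} (h : IsUG G g) {i : ℕ}
    (hi : i ∉ G) : (pderiv i g).vars ⊆ {i} := by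
  intro j hj
  rw [Finset.mem_singleton]
  by_contra hji
  exact notMem_vars j _ (h j i hji (Or.inr hi)) hj

/-- `∂_i g`, for `i` in the junta set, depends on the variables of the junta set only. -/
theorem vars_pderiv_mem [CharZero E] {G : Finset ℕ} {g : MvPolynomial ℕ E} (h : IsUG G g) {i : ℕ}
    (hi : i ∈ G) : (pderiv i g).vars ⊆ G := by
  intro j hj
  by_contra hjG
  have hji : j ≠ i := fun h1 => hjG (h1 ▸ hi)
  exact notMem_vars j _ (h j i hji (Or.inl hjG)) hj

theorem IsUG.mono {G G' : Finset ℕ} {g : MvPolynomial ℕ E} (h : IsUG G g) (hG : G ⊆ G') :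
    IsUG G' g := fun i j hij h1 => h i j hij (h1.imp (fun h2 h3 => h2 (hG h3)) fun h2 h3 => h2 (hG h3))

/-- Homomorphisms which agree on the variables of `f` agree at `f`. -/
theorem hom_congr {B : Type} [CommRing B] (φ ψ : MvPolynomial ℕ E →+* B)
    (hC : ∀ c : E, φ (C c) = ψ (C c)) (f : MvPolynomial ℕ E) (h : ∀ i ∈ f.vars, φ (X i) = ψ (X i)) :
    φ f = ψ f :=
  hom_congr_vars (RingHom.ext hC) (fun i hi _ => h i hi) rfl

theorem algHom_congr {B : Type} [CommRing B] [Algebra E B] (φ ψ : MvPolynomial ℕ E →ₐ[E] B)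
    (f : MvPolynomial ℕ E) (h : ∀ i ∈ f.vars, φ (X i) = ψ (X i)) : φ f = ψ f := by
  refine hom_congr (φ : MvPolynomial ℕ E →+* B) ψ (fun c => ?_) f h
  have h1 : (C c : MvPolynomial ℕ E) = algebraMap E (MvPolynomial ℕ E) c := rfl
  change φ (C c) = ψ (C c)
  rw [h1, AlgHom.commutes, AlgHom.commutes]

/-- The matrix of derivatives, over the polynomials. -/
noncomputable def PV {ρ : ℕ} (y : Fin ρ → MvPolynomial ℕ E) (z : Fin ρ → ℕ) :
    Matrix (Fin ρ) (Fin ρ) (MvPolynomial ℕ E) :=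
  Matrix.of fun b a => pderiv (z b) (y a)

theorem VV_eq {ρ : ℕ} (y : Fin ρ → MvPolynomial ℕ E) (z : Fin ρ → ℕ) :
    VV y z = (io E).mapMatrix (PV y z) := by
  ext b a
  rfl

theorem det_VV {ρ : ℕ} (y : Fin ρ → MvPolynomial ℕ E) (z : Fin ρ → ℕ) :
    (VV y z).det = io E (PV y z).det := by
  rw [VV_eq, RingHom.map_det]

theorem det_VV_ne {ρ : ℕ} (y : Fin ρ → MvPolynomial ℕ E) (z : Fin ρ → ℕ) :
    (VV y z).det ≠ 0 ↔ (PV y z).det ≠ 0 := by
  rw [det_VV]
  exact map_ne_zero_iff _ io_injective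

end Pool.Agent.PW.H58
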