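import Pool.Agent.PW.StmtsB

set_option autoImplicit false

/-!
# Squad PW, row GNF: the generator is free
-/

namespace Pool.Agent.PW.H58

open MvPolynomial

theorem gnf : GnfStmt := by
  classical
  intro E _ _ t n m hmt I hI
  -- the indices `< n` of `I`
  let S : Finset ℕ := I.filter (· < n)
  have hS : S.card ≤ t := (Finset.card_le_card (Finset.filter_subset _ _)).trans (hI.trans hmt)
  obtain ⟨φ, hφ⟩ : ∃ φ : S → Fin t, Function.Injective φ := by
    refine ⟨fun i => Fin.castLE hS (S.equivFin i), ?_⟩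
    intro a b h
    exact S.equivFin.injective (Fin.castLE_injective hS h)
  let c : ℕ → E := fun i => ∏ l ∈ (Finset.range n).erase i, ((i : E) - (l : E))
  have hc : ∀ i, c i ≠ 0 := by
    intro i
    refine Finset.prod_ne_zero_iff.2 fun l hl => ?_
    rw [sub_ne_zero]
    intro h
    exact (Finset.mem_erase.1 hl).1 (Nat.cast_injective h).symm
  let w : Fin t → E := fun j => if h : ∃ i : S, φ i = j then ((h.choose : ℕ) : E) else 0
  let zz : Fin t → MvPolynomial ℕ E := fun j =>
    if h : ∃ i : S, φ i = j then C (c h.choose)⁻¹ * X (h.choose : ℕ) else 0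
  have hw : ∀ i : S, w (φ i) = ((i : ℕ) : E) := by
    intro i
    have h : ∃ i' : S, φ i' = φ i := ⟨i, rfl⟩
    change (if h : ∃ i' : S, φ i' = φ i then ((h.choose : ℕ) : E) else 0) = _
    rw [dif_pos h, hφ h.choose_spec]
  have hzz : ∀ i : S, zz (φ i) = C (c i)⁻¹ * X (i : ℕ) := by
    intro i
    have h : ∃ i' : S, φ i' = φ i := ⟨i, rfl⟩
    change (if h : ∃ i' : S, φ i' = φ i then C (c h.choose)⁻¹ * X (h.choose : ℕ) else 0) = _
    rw [dif_pos h, hφ h.choose_spec]
  have hzz0 : ∀ j, (¬ ∃ i : S, φ i = j) → zz j = 0 := by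
    intro j hj
    change (if h : ∃ i' : S, φ i' = j then C (c h.choose)⁻¹ * X (h.choose : ℕ) else 0) = _
    rw [dif_neg hj]
  let π : MvPolynomial (Fin t ⊕ Fin t ⊕ ℕ) E →ₐ[E] MvPolynomial ℕ E :=
    aeval (Sum.elim (fun j => C (w j)) (Sum.elim zz fun i => if i ∈ I then X i else 0))
  have hπw : ∀ j, π (X (Sum.inl j)) = C (w j) := fun j => by
    change aeval _ (X (Sum.inl j)) = _
    rw [aeval_X]
    rfl
  have hπz : ∀ j, π (X (Sum.inr (Sum.inl j))) = zz j := fun j => by
    change aeval _ (X (Sum.inr (Sum.inl j))) = _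
    rw [aeval_X]
    rfl
  have hπu : ∀ i, π (X (Sum.inr (Sum.inr i))) = if i ∈ I then X i else 0 := fun i => by
    change aeval _ (X (Sum.inr (Sum.inr i))) = _
    rw [aeval_X]
    rfl
  have hπC : ∀ a : E, π (C a) = C a := fun a => by
    change aeval _ (C a) = _
    rw [aeval_C]
    rfl
  -- the value at `ζ_i`, `i < n`
  have key : ∀ i < n, π (genZ E t n i) = ∑ j : Fin t, zz j *
      ∏ l ∈ (Finset.range n).erase i, (C (w j) - C (l : E)) := by
    intro i hi
    rw [genZ, if_pos hi, map_sum]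
    refine Finset.sum_congr rfl fun j _ => ?_
    rw [map_mul, hπz, map_prod]
    congr 1
    refine Finset.prod_congr rfl fun l _ => ?_
    rw [map_sub, hπw, hπC]
  have hterm : ∀ i < n, ∀ i' : S, (i' : ℕ) ≠ i →
      ∏ l ∈ (Finset.range n).erase i, (C (w (φ i')) - C (l : E) : MvPolynomial ℕ E) = 0 := by
    intro i hi i' hii
    refine Finset.prod_eq_zero (i := (i' : ℕ)) ?_ ?_
    · exact Finset.mem_erase.2 ⟨hii, Finset.mem_range.2 (Finset.mem_filter.1 i'.2).2⟩
    · rw [hw, sub_self]
  refine ⟨π, fun i hi => ?_, fun i hi => ?_⟩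
  · by_cases hin : i < n
    · rw [key i hin]
      have hiS : i ∈ S := Finset.mem_filter.2 ⟨hi, hin⟩
      rw [Finset.sum_eq_single (φ ⟨i, hiS⟩)]
      · rw [hzz, hw]
        have h1 : ∏ l ∈ (Finset.range n).erase i, (C (i : E) - C (l : E) : MvPolynomial ℕ E) =
            C (c i) := by
          rw [map_prod]
          refine Finset.prod_congr rfl fun l _ => ?_
          rw [map_sub]
        rw [h1, mul_right_comm, ← C_mul, inv_mul_cancel₀ (hc i), C_1, one_mul]
      · intro j _ hj
        by_cases h2 : ∃ i' : S, φ i' = j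
        · obtain ⟨i', rfl⟩ := h2
          rw [hterm i hin i' ?_, mul_zero]
          intro h3
          apply hj
          congr 1
          exact Subtype.ext h3
        · rw [hzz0 j h2, zero_mul]
      · intro h
        exact absurd (Finset.mem_univ _) h
    · rw [genZ, if_neg hin, hπu, if_pos hi]
  · by_cases hin : i < n
    · rw [key i hin]
      refine Finset.sum_eq_zero fun j _ => ?_
      by_cases h2 : ∃ i' : S, φ i' = j
      · obtain ⟨i', rfl⟩ := h2
        rw [hterm i hin i' ?_, mul_zero]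
        intro h3
        exact hi (h3 ▸ (Finset.mem_filter.1 i'.2).1)
      · rw [hzz0 j h2, zero_mul]
    · rw [genZ, if_neg hin, hπu, if_neg hi]

end Pool.Agent.PW.H58
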