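import Pool.Agent.Helper58_PW.Basic
import Pool.Agent.Helper26_PW.Point

set_option autoImplicit false

/-!
# Squad PW, row SPL: splitting (from `Helper26_PW/Point.lean`)
-/

namespace Pool.Agent.PW.H58

open MvPolynomial

theorem spl : SplStmt := by
  intro E _ _ f Z h
  have h1 := Pool.Agent.PW.H26.split Z f h
  have h2 : f = kee Z f - C (constantCoeff f) + kil Z f := h1
  rw [constantCoeff_eq] at h2
  conv_lhs => rw [h2]
  ring

end Pool.Agent.PW.H58
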